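import Mathlib
import Pool.Agent.H26.Cone

set_option autoImplicit false

open Finset Polynomial Pool.Agent.H26.Cone

namespace Pool.Agent.Results.MP_60133c_an.Proof

noncomputable def P (Q : ℝ[X]) (r m : ℕ) : RatFunc ℝ :=
  PowerSeries.coeff m
    (((Q.map (algebraMap ℝ (RatFunc ℝ)) : (RatFunc ℝ)[X]) : PowerSeries (RatFunc ℝ)) +
      PowerSeries.C RatFunc.X * PowerSeries.X ^ r)⁻¹

theorem factor : ∀ (n : ℕ) (Q : ℂ[X]), Q ≠ 0 → Q.natDegree = n →
    (∀ w : ℂ, Q.IsRoot w → w.im = 0 ∧ 0 < w.re) →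
    ∃ a : ℕ → ℝ, (∀ i, 0 < a i) ∧ Q = C (Q.eval 0) * ∏ i ∈ range n, (1 - C (a i : ℂ) * X) := by
  intro n
  induction n with
  | zero =>
    intro Q _ hd _
    refine ⟨fun _ => 1, fun _ => one_pos, ?_⟩
    rw [eq_C_of_natDegree_eq_zero hd]; simp
  | succ n ih =>
    intro Q h0 hd hr
    obtain ⟨ρ, hρ⟩ := Complex.exists_root (f := Q) (natDegree_pos_iff_degree_pos.1 (by omega))
    obtain ⟨Q', hQ'⟩ := dvd_iff_isRoot.2 hρ
    have h0' : Q' ≠ 0 := by rintro rfl; exact h0 (by simpa using hQ')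
    have hd' : Q'.natDegree = n := by
      rw [hQ', natDegree_mul (X_sub_C_ne_zero _) h0', natDegree_X_sub_C] at hd; omega
    obtain ⟨a, ha, e⟩ := ih Q' h0' hd' fun w hw => hr w (by
      rw [hQ', IsRoot.def, eval_mul, hw.eq_zero, mul_zero])
    obtain ⟨h1, h2⟩ := hr ρ hρ
    have h3 : ρ = (ρ.re : ℂ) := Complex.ext (by simp) (by simpa using h1)
    have h4 : ρ ≠ 0 := by rintro rfl; simp at h2
    refine ⟨Function.update a n ρ.re⁻¹, fun i => ?_, ?_⟩
    · rcases eq_or_ne i n with rfl | h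
      · simpa using h2
      · simpa [Function.update_of_ne h] using ha i
    · rw [prod_range_succ, Function.update_self,
        prod_congr rfl (g := fun i => (1 - C (a i : ℂ) * X : ℂ[X])) fun i hi => by
          rw [Function.update_of_ne (mem_range.1 hi).ne]]
      have h5 : ((ρ.re⁻¹ : ℝ) : ℂ) = ρ⁻¹ := by rw [Complex.ofReal_inv, ← h3]
      have h6 : (C ρ * C ρ⁻¹ : ℂ[X]) = 1 := by rw [← C_mul, mul_inv_cancel₀ h4, C_1]
      have h7 : Q.eval 0 = -ρ * Q'.eval 0 := by rw [hQ']; simp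
      rw [h5, h7, C_mul, C_neg]
      conv_lhs => rw [hQ', e]
      linear_combination (-C (eval 0 Q') * (∏ i ∈ range n, (1 - C (a i : ℂ) * X : ℂ[X])) * X) * h6

theorem point {y : ℂ} (hy : ¬ (y.im = 0 ∧ y.re < 0)) {n : ℕ} (hn : 0 < n) (r : ℕ)
    {a : ℕ → ℝ} (ha : ∀ i, 0 < a i) {H : PowerSeries ℂ}
    (hH : (∏ i ∈ range n, (1 - PowerSeries.C (a i : ℂ) * PowerSeries.X) -
      PowerSeries.C y * PowerSeries.X ^ r) * H = 1) (m : ℕ) : PowerSeries.coeff m H ≠ 0 := by
  set R : ℕ → ℕ → ℂ := fun m j => PowerSeries.coeff m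
    ((∏ i ∈ range j, (1 - PowerSeries.C (a i : ℂ) * PowerSeries.X)) * H) with hR
  have e : ∀ j, (∏ i ∈ range j, (1 - PowerSeries.C (a i : ℂ) * PowerSeries.X)) * H =
      (∏ i ∈ range (j + 1), (1 - PowerSeries.C (a i : ℂ) * PowerSeries.X)) * H +
      PowerSeries.C (a j : ℂ) * (PowerSeries.X *
        ((∏ i ∈ range j, (1 - PowerSeries.C (a i : ℂ) * PowerSeries.X)) * H)) := by
    intro j; rw [prod_range_succ]; ring
  have hA : ∀ m j, j < n → R (m + 1) j = R (m + 1) (j + 1) + a j * R m j := by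
    intro m j _
    simp only [hR]
    conv_lhs => rw [e j]
    rw [map_add, PowerSeries.coeff_C_mul, PowerSeries.coeff_succ_X_mul]
  have hA0 : ∀ j, R 0 j = R 0 0 := by
    intro j
    induction j with
    | zero => rfl
    | succ j ih =>
      rw [← ih]
      simp only [hR]
      conv_rhs => rw [e j]
      rw [map_add, PowerSeries.coeff_C_mul, PowerSeries.coeff_zero_X_mul]; simp
  have hB : ∀ m, R m n = (if m = 0 then 1 else 0) + y * if r ≤ m then R (m - r) 0 else 0 := by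
    intro m
    have e2 : (∏ i ∈ range n, (1 - PowerSeries.C (a i : ℂ) * PowerSeries.X)) * H =
        1 + PowerSeries.C y * (PowerSeries.X ^ r * H) := by linear_combination hH
    simp only [hR]
    rw [e2, map_add, PowerSeries.coeff_one, PowerSeries.coeff_C_mul,
      PowerSeries.coeff_X_pow_mul']
    simp
  have hm : R m 0 = PowerSeries.coeff m H := by simp [hR]
  rw [← hm]
  rcases Nat.eq_zero_or_pos r with rfl | hr
  · have h1 : (1 - y) * R 0 0 = 1 := by
      have := hB 0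
      rw [hA0 n] at this
      simp only [if_true, le_refl, Nat.sub_zero] at this
      linear_combination this
    refine core_zero hy (left_ne_zero_of_mul_eq_one h1) hn ha (fun j _ => hA0 j)
      (right_ne_zero_of_mul_eq_one h1) hA (fun m => ?_) m
    simpa using hB (m + 1)
  · refine core_pos hy hn hr ha (fun j _ => ?_) hA (fun m => ?_) m
    · have := hB 0
      rw [hA0 n, if_neg (show ¬ r ≤ 0 by omega)] at this
      rw [hA0 j]; simpa using this
    · simpa using hB (m + 1)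

noncomputable def d (Q : ℝ[X]) (r k : ℕ) : ℝ[X] := C (Q.coeff k) + if k = r then X else 0

noncomputable def G (Q : ℝ[X]) (r : ℕ) : PowerSeries ℝ[X] :=
  1 + PowerSeries.X * PowerSeries.mk fun i => d Q r (i + 1) * d Q r 0 ^ i

noncomputable def N (Q : ℝ[X]) (r m : ℕ) : ℝ[X] :=
  PowerSeries.coeff m (PowerSeries.invOfUnit (G Q r) 1)

theorem map_G {K : Type*} [Field K] (φ : ℝ[X] →+* K) (Q : ℝ[X]) (r : ℕ) :
    PowerSeries.map φ (G Q r) * PowerSeries.map φ (PowerSeries.invOfUnit (G Q r) 1) = 1 := by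
  rw [← map_mul, PowerSeries.mul_invOfUnit _ _ (by simp [G]), map_one]

theorem link {K : Type*} [Field K] (φ : ℝ[X] →+* K) (Q : ℝ[X]) (r : ℕ) (hD : φ (d Q r 0) ≠ 0)
    {F : PowerSeries K} (hF : ∀ k, PowerSeries.coeff k F = φ (d Q r k)) (m : ℕ) :
    φ (N Q r m) = φ (d Q r 0) ^ (m + 1) * PowerSeries.coeff m F⁻¹ := by
  have h0 : PowerSeries.constantCoeff F ≠ 0 := by
    rw [← PowerSeries.coeff_zero_eq_constantCoeff_apply, hF]; exact hD
  have h1 : PowerSeries.rescale (φ (d Q r 0)) F =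
      PowerSeries.C (φ (d Q r 0)) * PowerSeries.map φ (G Q r) := by
    ext k
    rw [PowerSeries.coeff_rescale, hF, PowerSeries.coeff_C_mul, PowerSeries.coeff_map]
    rcases k with _ | k
    · simp [G]
    · simp only [G, map_add, PowerSeries.coeff_succ_X_mul, PowerSeries.coeff_mk,
        PowerSeries.coeff_one, Nat.succ_ne_zero, if_false, map_zero, zero_add, map_mul, map_pow]
      ring
  have h2 := congrArg (PowerSeries.rescale (φ (d Q r 0))) (PowerSeries.mul_inv_cancel F h0)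
  rw [map_mul, map_one, h1] at h2
  have h3 : PowerSeries.map φ (PowerSeries.invOfUnit (G Q r) 1) =
      PowerSeries.C (φ (d Q r 0)) * PowerSeries.rescale (φ (d Q r 0)) F⁻¹ := by
    have h4 := map_G φ Q r
    linear_combination (-PowerSeries.map φ (PowerSeries.invOfUnit (G Q r) 1)) * h2 +
      (PowerSeries.C (φ (d Q r 0)) * PowerSeries.rescale (φ (d Q r 0)) F⁻¹) * h4
  have h5 := congrArg (PowerSeries.coeff m) h3
  rw [PowerSeries.coeff_map, PowerSeries.coeff_C_mul, PowerSeries.coeff_rescale] at h5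
  rw [N, h5]; ring

theorem pole {K : Type*} [Field K] (φ : ℝ[X] →+* K) (Q : ℝ[X]) (r : ℕ) (hD : φ (d Q r 0) = 0)
    (m : ℕ) : φ (N Q r m) = (-φ (d Q r 1)) ^ m := by
  have h1 : PowerSeries.map φ (G Q r) = 1 + PowerSeries.C (φ (d Q r 1)) * PowerSeries.X := by
    ext k
    rw [PowerSeries.coeff_map]
    rcases k with _ | _ | k
    · simp [G]
    · simp [G, PowerSeries.coeff_succ_X_mul, PowerSeries.coeff_one]
    · simp [G, PowerSeries.coeff_succ_X_mul, PowerSeries.coeff_one, hD, PowerSeries.coeff_X]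
  have h2 := map_G φ Q r
  rw [h1, add_mul, one_mul, mul_assoc] at h2
  induction m with
  | zero =>
    have h3 := congrArg (PowerSeries.coeff 0) h2
    rw [map_add, PowerSeries.coeff_C_mul, PowerSeries.coeff_zero_X_mul,
      PowerSeries.coeff_map] at h3
    simpa [N] using h3
  | succ m ih =>
    have h3 := congrArg (PowerSeries.coeff (m + 1)) h2
    rw [map_add, PowerSeries.coeff_C_mul, PowerSeries.coeff_succ_X_mul,
      PowerSeries.coeff_map, PowerSeries.coeff_map, PowerSeries.coeff_one,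
      if_neg (Nat.succ_ne_zero m)] at h3
    rw [N] at ih ⊢
    rw [ih] at h3
    linear_combination h3

theorem result (Q : ℝ[X]) (hQ : 0 < Q.natDegree)
    (hroots : ∀ w : ℂ, aeval w Q = 0 → w.im = 0 ∧ 0 < w.re) (h0 : 0 < Q.eval 0)
    (r m : ℕ) (z : ℂ) (hz : aeval z (P Q r m).num = 0) : z.im = 0 ∧ 0 < z.re := by
  by_contra hc
  have hq : 0 < Q.coeff 0 := by rwa [coeff_zero_eq_eval_zero]
  have hD : d Q r 0 ≠ 0 := by
    intro h
    have := congrArg (fun p => p.coeff 0) h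
    simp only [d, coeff_add, coeff_C_zero, coeff_zero] at this
    split_ifs at this <;> simp at this <;> linarith
  have hD' : algebraMap ℝ[X] (RatFunc ℝ) (d Q r 0) ≠ 0 := by simpa using hD
  have h1 := link (algebraMap ℝ[X] (RatFunc ℝ)) Q r hD'
    (F := ((Q.map (algebraMap ℝ (RatFunc ℝ)) : (RatFunc ℝ)[X]) : PowerSeries (RatFunc ℝ)) +
      PowerSeries.C RatFunc.X * PowerSeries.X ^ r) (fun k => by
      rw [map_add, Polynomial.coeff_coe, coeff_map, PowerSeries.coeff_C_mul,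
        PowerSeries.coeff_X_pow, d, map_add]
      split_ifs <;> simp) m
  have h2 : P Q r m = algebraMap ℝ[X] (RatFunc ℝ) (N Q r m) /
      algebraMap ℝ[X] (RatFunc ℝ) (d Q r 0 ^ (m + 1)) := by
    rw [h1, map_pow, P]
    field_simp
  obtain ⟨c, hc2⟩ := RatFunc.num_div_dvd (N Q r m) (pow_ne_zero (m + 1) hD)
  have h3 : aeval z (N Q r m) = 0 := by rw [hc2, ← h2, map_mul, hz, zero_mul]
  have hQ0 : Q.map (algebraMap ℝ ℂ) ≠ 0 := by
    rw [Ne, Polynomial.map_eq_zero]; rintro rfl; simp at hQ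
  obtain ⟨a, ha, e⟩ := factor Q.natDegree (Q.map (algebraMap ℝ ℂ)) hQ0 (by simp)
    fun w hw => hroots w (by rwa [IsRoot.def, eval_map_algebraMap] at hw)
  have hq0 : (Q.map (algebraMap ℝ ℂ)).eval 0 = (Q.coeff 0 : ℂ) := by
    rw [← coeff_zero_eq_eval_zero, coeff_map]; rfl
  rw [hq0] at e
  have hqc : (Q.coeff 0 : ℂ) ≠ 0 := by exact_mod_cast hq.ne'
  have e' : ((Q.map (algebraMap ℝ ℂ) : ℂ[X]) : PowerSeries ℂ) = PowerSeries.C (Q.coeff 0 : ℂ) *
      ∏ i ∈ range Q.natDegree, (1 - PowerSeries.C (a i : ℂ) * PowerSeries.X) := by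
    conv_lhs => rw [e]
    rw [← Polynomial.coeToPowerSeries.ringHom_apply, map_mul, map_prod]
    simp
  by_cases hz0 : (aeval z : ℝ[X] →ₐ[ℝ] ℂ).toRingHom (d Q r 0) = 0
  · have h4 := pole _ Q r hz0 m
    have h5 : (aeval z : ℝ[X] →ₐ[ℝ] ℂ).toRingHom (N Q r m) = 0 := h3
    rw [h5] at h4
    have h6 := neg_eq_zero.1 (eq_zero_of_pow_eq_zero h4.symm)
    have hr : r = 0 := by
      by_contra hr
      simp [d, Ne.symm hr] at hz0
      exact hq.ne' hz0
    subst hr
    simp [d] at h6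
    have h7 : ∀ n : ℕ, (∏ i ∈ range n, (1 - C (a i : ℂ) * X : ℂ[X])).coeff 0 = 1 ∧
        (∏ i ∈ range n, (1 - C (a i : ℂ) * X : ℂ[X])).coeff 1 = -((∑ i ∈ range n, a i : ℝ) : ℂ) := by
      intro n
      induction n with
      | zero => simp [coeff_one]
      | succ n ih =>
        rw [prod_range_succ, sum_range_succ, mul_sub, mul_one, ← mul_assoc, coeff_sub, coeff_sub,
          coeff_mul_X, mul_coeff_zero, coeff_mul_C, ih.1, ih.2]
        simp
        ring
    have h8 := congrArg (fun p => p.coeff 1) e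
    simp only [coeff_map, coeff_C_mul, (h7 _).2, h6, map_zero] at h8
    have h9 : 0 < ∑ i ∈ range Q.natDegree, a i :=
      sum_pos (fun i _ => ha i) ⟨0, mem_range.2 hQ⟩
    have h10 : ((∑ i ∈ range Q.natDegree, a i : ℝ) : ℂ) ≠ 0 := by exact_mod_cast h9.ne'
    exact mul_ne_zero hqc (neg_ne_zero.2 h10) h8.symm
  · set F : PowerSeries ℂ := ((Q.map (algebraMap ℝ ℂ) : ℂ[X]) : PowerSeries ℂ) +
      PowerSeries.C z * PowerSeries.X ^ r with hF
    have hFc : ∀ k, PowerSeries.coeff k F = (aeval z : ℝ[X] →ₐ[ℝ] ℂ).toRingHom (d Q r k) := by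
      intro k
      rw [hF, map_add, Polynomial.coeff_coe, coeff_map, PowerSeries.coeff_C_mul,
        PowerSeries.coeff_X_pow, d, map_add]
      split_ifs <;> simp
    have h4 := link _ Q r hz0 hFc m
    have h5 : (aeval z : ℝ[X] →ₐ[ℝ] ℂ).toRingHom (N Q r m) = 0 := h3
    rw [h5] at h4
    have h6 : PowerSeries.coeff m F⁻¹ = 0 :=
      (mul_eq_zero.1 h4.symm).resolve_left (pow_ne_zero _ hz0)
    have h7 : PowerSeries.constantCoeff F ≠ 0 := by
      rw [← PowerSeries.coeff_zero_eq_constantCoeff_apply, hFc]; exact hz0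
    have h8 := PowerSeries.mul_inv_cancel F h7
    have hy : ¬ ((-z / (Q.coeff 0 : ℂ)).im = 0 ∧ (-z / (Q.coeff 0 : ℂ)).re < 0) := by
      rintro ⟨k1, k2⟩
      rw [Complex.div_ofReal_im, div_eq_zero_iff] at k1
      rw [Complex.div_ofReal_re, div_neg_iff] at k2
      apply hc
      simp only [Complex.neg_im, Complex.neg_re] at k1 k2
      constructor
      · rcases k1 with k1 | k1 <;> linarith
      · rcases k2 with k2 | k2 <;> linarith [k2.1, k2.2]
    have h9 : (PowerSeries.C (-z / (Q.coeff 0 : ℂ)) * PowerSeries.C (Q.coeff 0 : ℂ) :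
        PowerSeries ℂ) = -PowerSeries.C z := by
      rw [← map_mul, div_mul_cancel₀ _ hqc, map_neg]
    refine point hy hQ r ha (H := PowerSeries.C (Q.coeff 0 : ℂ) * F⁻¹) ?_ m ?_
    · linear_combination h8 - F⁻¹ * hF - F⁻¹ * e' - (PowerSeries.X ^ r * F⁻¹) * h9
    · rw [PowerSeries.coeff_C_mul, h6, mul_zero]

end Pool.Agent.Results.MP_60133c_an.Proof
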